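import Pool.Agent.helper17.RX.Spec

/-!
# Project RX (MP_f42afa_pr): the final inequality with the exponent `R - 1` (helper48)
-/

set_option autoImplicit false

namespace TP.TW

open DP MeasureTheory Finset

/-- `n² ≤ (C R² log n)^(R-1) cost` for every algorithm with `R ≥ 1` rounds. -/
def FNX_stmt : Prop := ∃ C : ℝ, 1 ≤ C ∧ ∀ n R : ℕ, 2 ≤ n → 1 ≤ R → ∀ b : ℕ → (Fin n × Fin n → Bool) → Finset (Fin n × Fin n), Adb b →
  (∀ x y : Fin n × Fin n → Bool, (∀ i < R, ∀ p ∈ b i x, x p = y p) → (Crossing n x ↔ Crossing n y)) →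
  (n : ℝ) ^ 2 ≤ (C * ((R : ℝ) ^ 2 * Real.log n)) ^ (R - 1) * cost b R

theorem FNX_log {n : ℕ} (hn : 2 ≤ n) : (1 : ℝ) ≤ 2 * Real.log n := by
  have h1 : Real.log 2 ≤ Real.log n := Real.log_le_log (by norm_num) (by exact_mod_cast hn)
  have h2 := Real.log_two_gt_d9
  linarith

theorem FNX_cost {n : ℕ} (b : ℕ → (Fin n × Fin n → Bool) → Finset (Fin n × Fin n)) (R : ℕ) :
    0 ≤ cost b R := by
  unfold cost
  exact div_nonneg (Finset.sum_nonneg fun _ _ => Nat.cast_nonneg _) (by positivity)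

theorem FNX (h1 : RLB_stmt) (h2 : LBA_stmt) (h3 : DRX_stmt) (h4 : SNX_stmt) : FNX_stmt := by
  obtain ⟨C, hC, hs⟩ := h4
  refine ⟨408 * C, by linarith, fun n R hn hR b hb hd => ?_⟩
  have hlog := FNX_log hn
  have hc := FNX_cost b R
  have key := h1 n R hn hR b hb hd
  obtain ⟨hr, hbr, hsum⟩ := h2 n b hb
  obtain ⟨r, rfl⟩ : ∃ r, R = r + 1 := ⟨R - 1, by omega⟩
  rcases Nat.eq_zero_or_pos r with hr0 | hr0
  · subst hr0
    have hRS : RS (fun _ : V → Bool => (∅ : Finset V)) ((univ : Finset (Fin n × Fin n)).image phi)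
        (fun _ => 0) 0 0 := by
      refine ⟨hbr, fun _ => Finset.empty_subset _, ⟨∅, fun _ _ _ => rfl⟩, fun _ => le_rfl,
        fun _ _ => rfl, le_rfl, ?_⟩
      intro T U Λ z E _ _
      simp [Pr]
    have h5 := hs 0 n (fun _ => ∅) ((univ : Finset (Fin n × Fin n)).image phi) (fun _ => 0) 0 hn
      (Finset.Subset.refl _) hRS
    have hl : ∀ β : V → Bool, lb b (0 + 1) β = ∅ := fun β => by simp [lb]
    simp only [hl] at key
    simp only [mul_zero, zero_mul, Finset.sum_const_zero] at h5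
    simp only [zero_add, Nat.sub_self, pow_zero, one_mul] at key ⊢
    linarith
  · obtain ⟨k, rfl⟩ : ∃ k, r = k + 1 := ⟨r - 1, by omega⟩
    have hR' : Rnd ((univ : Finset (Fin n × Fin n)).image phi) (fun i => lb b (i + 1)) := by
      obtain ⟨_, ha, hadp⟩ := hr
      refine ⟨fun β => by simp [lb], fun i β => ha (i + 1) β, fun i β β' h => hadp (i + 1) β β' h⟩
    have hRS := h3 _ _ k hR' hbr
    have h5 := hs k n _ _ _ _ hn (Finset.Subset.refl _) hRS
    have h6 := hsum (k + 1 + 1)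
    have e1 : ((k + 1 + 1 : ℕ) : ℝ) = (k : ℝ) + 2 := by push_cast; ring
    rw [show k + 1 + 1 - 1 = k + 1 by omega, e1]
    have hk0 : (0 : ℝ) ≤ k := Nat.cast_nonneg k
    set l := Real.log n with hl
    have hl0 : 0 < l := by linarith
    -- the second term
    have h7 : (C * (((k : ℝ) + 1) * l)) ^ (k + 1) * (204 * ((k : ℝ) + 1)) ^ k *
        ∑ v ∈ (univ : Finset (Fin n × Fin n)).image phi, Pr {β | v ∈ lb b (k + 1 + 1) β} ≤
        (204 * C * (((k : ℝ) + 2) ^ 2 * l)) ^ (k + 1) * cost b (k + 1 + 1) := by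
      have h8 : (204 * ((k : ℝ) + 1)) ^ k ≤ (204 * ((k : ℝ) + 1)) ^ (k + 1) :=
        pow_le_pow_right₀ (by linarith) (by omega)
      have h9 : (C * (((k : ℝ) + 1) * l)) ^ (k + 1) * (204 * ((k : ℝ) + 1)) ^ k ≤
          (204 * C * (((k : ℝ) + 2) ^ 2 * l)) ^ (k + 1) := by
        calc (C * (((k : ℝ) + 1) * l)) ^ (k + 1) * (204 * ((k : ℝ) + 1)) ^ k
            ≤ (C * (((k : ℝ) + 1) * l)) ^ (k + 1) * (204 * ((k : ℝ) + 1)) ^ (k + 1) :=
              mul_le_mul_of_nonneg_left h8 (by positivity)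
          _ = (204 * C * (((k : ℝ) + 1) ^ 2 * l)) ^ (k + 1) := by
              rw [← mul_pow]; congr 1; ring
          _ ≤ (204 * C * (((k : ℝ) + 2) ^ 2 * l)) ^ (k + 1) := by
              have : ((k : ℝ) + 1) ^ 2 ≤ ((k : ℝ) + 2) ^ 2 := by
                apply pow_le_pow_left₀ <;> linarith
              have h0 : (0 : ℝ) ≤ C := by linarith
              gcongr
      exact mul_le_mul h9 h6 (Finset.sum_nonneg fun _ _ => measureReal_nonneg) (by
        have h0 : (0 : ℝ) ≤ C := by linarith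
        positivity)
    have h10 : (n : ℝ) ^ 2 ≤ cost b (k + 1 + 1) +
        (204 * C * (((k : ℝ) + 2) ^ 2 * l)) ^ (k + 1) * cost b (k + 1 + 1) := by
      exact key.trans (add_le_add le_rfl (h5.trans h7))
    have hz : (1 : ℝ) ≤ 204 * C * (((k : ℝ) + 2) ^ 2 * l) := by
      have h11 : (4 : ℝ) ≤ ((k : ℝ) + 2) ^ 2 := by nlinarith
      have h12 : (4 : ℝ) * (1 / 2) ≤ ((k : ℝ) + 2) ^ 2 * l :=
        mul_le_mul h11 (by linarith) (by norm_num) (by positivity)
      have h16 : (1 : ℝ) * (4 * (1 / 2)) ≤ (204 * C) * (((k : ℝ) + 2) ^ 2 * l) :=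
        mul_le_mul (by linarith) h12 (by norm_num) (by linarith)
      linarith
    have h13 : 1 + (204 * C * (((k : ℝ) + 2) ^ 2 * l)) ^ (k + 1) ≤
        (408 * C * (((k : ℝ) + 2) ^ 2 * l)) ^ (k + 1) := by
      have e2 : 408 * C * (((k : ℝ) + 2) ^ 2 * l) = 2 * (204 * C * (((k : ℝ) + 2) ^ 2 * l)) := by ring
      rw [e2, mul_pow (2 : ℝ)]
      have h14 : (1 : ℝ) ≤ (204 * C * (((k : ℝ) + 2) ^ 2 * l)) ^ (k + 1) := one_le_pow₀ hz
      have h15 : (2 : ℝ) ≤ 2 ^ (k + 1) := by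
        calc (2 : ℝ) = 2 ^ 1 := by norm_num
          _ ≤ 2 ^ (k + 1) := pow_le_pow_right₀ (by norm_num) (by omega)
      have h17 := mul_le_mul_of_nonneg_right h15 (zero_le_one.trans h14)
      linarith
    calc (n : ℝ) ^ 2 ≤ (1 + (204 * C * (((k : ℝ) + 2) ^ 2 * l)) ^ (k + 1)) * cost b (k + 1 + 1) := by
          linarith
      _ ≤ _ := mul_le_mul_of_nonneg_right h13 hc

end TP.TW
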